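import Pool.Agent.H72.StabH

set_option autoImplicit false

namespace Pool.Agent.Results.MP_0ea811_al.FlexHS

open Matrix Filter Topology H72.Stab

/-- Stability of `G` with respect to the metric groups `(U n, d n)`, `n ≥ 1`. -/
def IsStable {U : ℕ → Type} [∀ n, Group (U n)] (d : ∀ n, U n → U n → ℝ) (G : Type) [Group G] :
    Prop :=
  ∀ (n : ℕ → ℕ), (∀ k, 0 < n k) → ∀ φ : ∀ k, G → U (n k),
    (∀ a b, Tendsto (fun k => d (n k) (φ k a * φ k b) (φ k (a * b))) atTop (𝓝 0)) →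
    ∃ ψ : ∀ k, G →* U (n k), ∀ a, Tendsto (fun k => d (n k) (φ k a) (ψ k a)) atTop (𝓝 0)

/-- Normalized Hilbert-Schmidt distance on `n × n` matrices. -/
noncomputable def hs (n : ℕ) (A B : Matrix (Fin n) (Fin n) ℂ) : ℝ :=
  √(((A - B)ᴴ * (A - B)).trace.re / n)

/-- Normalized Hilbert-Schmidt distance on `U(n)`. -/
noncomputable def hsU (n : ℕ) (A B : Matrix.unitaryGroup (Fin n) ℂ) : ℝ := hs n A.1 B.1

/-- Normalized Hamming distance on `Sym(n)`. -/
noncomputable def ham (n : ℕ) (σ τ : Equiv.Perm (Fin n)) : ℝ :=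
  ((Finset.univ.filter fun x => σ x ≠ τ x).card : ℝ) / n

/-- Flexible Hilbert-Schmidt stability for the generators `s`. -/
def FlexU {G σ : Type} [Group G] (s : σ → G) : Prop :=
  ∀ ε : ℝ, 0 < ε → ∃ δ > 0, ∃ E : Finset (FreeGroup σ), (∀ e ∈ E, FreeGroup.lift s e = 1) ∧
    ∀ n : ℕ, 0 < n → ∀ φ : FreeGroup σ →* Matrix.unitaryGroup (Fin n) ℂ,
      (∀ e ∈ E, hsU n (φ e) 1 ≤ δ) →
      ∃ (m : ℕ) (ψ : G →* Matrix.unitaryGroup (Fin n ⊕ Fin m) ℂ),
        ((n + m : ℕ) : ℝ) ≤ (1 + ε) * n ∧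
        ∀ x, hs n (φ (FreeGroup.of x)).1 (ψ (s x)).1.toBlocks₁₁ ≤ ε

/-- Flexible permutation stability for the generators `s`. -/
def FlexP {G σ : Type} [Group G] (s : σ → G) : Prop :=
  ∀ ε : ℝ, 0 < ε → ∃ δ > 0, ∃ E : Finset (FreeGroup σ), (∀ e ∈ E, FreeGroup.lift s e = 1) ∧
    ∀ n : ℕ, 0 < n → ∀ φ : FreeGroup σ →* Equiv.Perm (Fin n),
      (∀ e ∈ E, ham n (φ e) 1 ≤ δ) →
      ∃ (m : ℕ) (ψ : G →* Equiv.Perm (Fin n ⊕ Fin m)),
        ((n + m : ℕ) : ℝ) ≤ (1 + ε) * n ∧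
        ∀ x (τ : Equiv.Perm (Fin n)), (∀ a b, ψ (s x) (Sum.inl a) = Sum.inl b → τ a = b) →
          ham n (φ (FreeGroup.of x)) τ ≤ ε

/-- `G` is Hilbert-Schmidt stable, or flexibly stable for some finite generating family. -/
def GoodU (G : Type) [Group G] : Prop :=
  IsStable hsU G ∨ ∃ (k : ℕ) (s : Fin k → G), Subgroup.closure (Set.range s) = ⊤ ∧ FlexU s

/-- `G` is permutation stable, or flexibly stable for some finite generating family. -/
def GoodP (G : Type) [Group G] : Prop :=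
  IsStable ham G ∨ ∃ (k : ℕ) (s : Fin k → G), Subgroup.closure (Set.range s) = ⊤ ∧ FlexP s

/-- `i` stays injective in some finite quotient of `G`. -/
def SeenInFinite {H G : Type} [Group H] [Group G] (i : H →* G) : Prop :=
  ∃ (Q : Type) (_ : Group Q) (_ : Finite Q) (q : G →* Q), Function.Injective (q.comp i)

/-- The amalgamated free product. -/
abbrev Amalgam {H G₁ G₂ : Type} [Group H] [Group G₁] [Group G₂] (i₁ : H →* G₁) (i₂ : H →* G₂) :
    Type :=
  Monoid.Coprod G₁ G₂ ⧸ Subgroup.normalClosure (Set.range fun h : H =>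
    (Monoid.Coprod.inl (i₁ h) * (Monoid.Coprod.inr (i₂ h))⁻¹ : Monoid.Coprod G₁ G₂))

lemma hs_eq (n : ℕ) (A B : Matrix (Fin n) (Fin n) ℂ) : hs n A B = √(fr (A - B) / n) := by
  rw [hs, ← fr_eq_trace]; simp

lemma sqrt_tendsto {a : ℕ → ℝ} (h0 : ∀ k, 0 ≤ a k) :
    Tendsto (fun k => √(a k)) atTop (𝓝 0) ↔ Tendsto a atTop (𝓝 0) := by
  constructor
  · intro h
    have := h.pow 2
    simpa [Real.sq_sqrt (h0 _)] using this
  · intro h
    simpa using h.sqrt

lemma hs_iff (G : Type) [Group G] : IsStable hsU G ↔ SStable CU G := by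
  have hq : ∀ {n : ℕ} (A : Matrix (Fin n) (Fin n) ℂ),
      A ∈ Matrix.unitaryGroup (Fin n) ℂ ↔ CU.Q A := fun A => Iff.rfl
  have h0 : ∀ {n : ℕ} (A : Matrix (Fin n) (Fin n) ℂ), 0 ≤ fr A / n :=
    fun A => div_nonneg (fr_nonneg _) (Nat.cast_nonneg _)
  constructor
  · intro h n φ hn hφ hm
    obtain ⟨ψ, hψ⟩ := h n hn (fun k g => ⟨φ k g, (hq _).2 (hφ k g)⟩) (fun a b => by
      simp only [hsU, hs_eq]
      exact (sqrt_tendsto fun k => h0 _).2 (hm a b))
    refine ⟨fun k => (Matrix.unitaryGroup (Fin (n k)) ℂ).subtype.comp (ψ k),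
      fun k g => (hq _).1 (ψ k g).2, fun a => ?_⟩
    have := hψ a
    simp only [hsU, hs_eq] at this
    exact (sqrt_tendsto fun k => h0 _).1 this
  · intro h n hn φ hm
    obtain ⟨ψ, hQ, hψ⟩ := h n (fun k g => (φ k g).1) hn (fun k g => (hq _).1 (φ k g).2)
      (fun a b => by
        have := hm a b
        simp only [hsU, hs_eq] at this
        exact (sqrt_tendsto fun k => h0 _).1 this)
    refine ⟨fun k => (ψ k).codRestrict _ (fun g => (hq _).2 (hQ k g)), fun a => ?_⟩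
    simp only [hsU, hs_eq]
    exact (sqrt_tendsto fun k => h0 _).2 (hψ a)

lemma ham_eq (n : ℕ) (σ τ : Equiv.Perm (Fin n)) : fr (pm σ - pm τ) / n = 2 * ham n σ τ := by
  rw [fr_pm_sub, ham, mul_div_assoc]

lemma two_tendsto {a : ℕ → ℝ} :
    Tendsto (fun k => 2 * a k) atTop (𝓝 0) ↔ Tendsto a atTop (𝓝 0) := by
  constructor
  · intro h
    simpa using h.const_mul 2⁻¹
  · intro h
    simpa using h.const_mul 2

lemma ham_iff (G : Type) [Group G] : IsStable ham G ↔ SStable CP G := by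
  constructor
  · intro h n φ hn hφ hm
    choose σ hσ using hφ
    obtain ⟨ψ, hψ⟩ := h n hn σ (fun a b => by
      have := hm a b
      simp only [hσ, ← pm_mul_perm, ham_eq] at this
      exact two_tendsto.1 this)
    refine ⟨fun k => pmHom.comp (ψ k), fun k g => ⟨_, rfl⟩, fun a => ?_⟩
    refine (two_tendsto.2 (hψ a)).congr fun k => ?_
    rw [← ham_eq, hσ]; rfl
  · intro h n hn φ hm
    obtain ⟨ψ, hQ, hψ⟩ := h n (fun k g => pm (φ k g)) hn (fun k g => ⟨_, rfl⟩) (fun a b => by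
      simp only [← pm_mul_perm, ham_eq]
      exact two_tendsto.2 (hm a b))
    refine ⟨fun k => perm ⟨Fin (n k), ψ k, hQ k⟩, fun a => two_tendsto.1 ?_⟩
    refine (hψ a).congr fun k => ?_
    rw [← ham_eq, ← perm_spec ⟨Fin (n k), ψ k, hQ k⟩]

lemma hs_le {n : ℕ} (hn : 0 < n) (A B : Matrix (Fin n) (Fin n) ℂ) {r : ℝ} (hr : 0 ≤ r) :
    hs n A B ≤ r ↔ fr (A - B) ≤ r ^ 2 * n := by
  have : (0:ℝ) < n := by exact_mod_cast hn
  rw [hs_eq, Real.sqrt_le_left hr, div_le_iff₀ this]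

lemma fr_corner {ι β : Type} [Fintype ι] [DecidableEq ι] [Fintype β] [DecidableEq β]
    (A : Matrix ι ι ℂ) {w : Matrix (ι ⊕ β) (ι ⊕ β) ℂ} (hw : CU.Q w) :
    fr (A - w.toBlocks₁₁) ≤ fr (blk A β - w) ∧
      fr (blk A β - w) ≤ fr (A - w.toBlocks₁₁) + 4 * Fintype.card β := by
  obtain ⟨X, B, D, Y, rfl⟩ : ∃ X B D Y, w = fromBlocks X B D Y :=
    ⟨_, _, _, _, (fromBlocks_toBlocks w).symm⟩
  have e : blk A β - fromBlocks X B D Y = fromBlocks (A - X) (-B) (-D) (1 - Y) := by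
    ext (i | i) (j | j) <;> simp
  have o : fr (1 : Matrix β β ℂ) = Fintype.card β := fr_iso (by simp)
  have h1 := fr_mul_left hw.1 (fromBlocks (0 : Matrix ι ι ℂ) 0 0 (1 : Matrix β β ℂ))
  have h2 := fr_mul_right hw.2 (fromBlocks (0 : Matrix ι ι ℂ) 0 0 (1 : Matrix β β ℂ))
  simp only [fromBlocks_multiply, Matrix.mul_zero, Matrix.zero_mul, Matrix.mul_one,
    Matrix.one_mul, add_zero, zero_add, fr_blocks, fr_zero, o] at h1 h2
  have h3 := fr_sub_le (1 : Matrix β β ℂ) Y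
  rw [e, fr_blocks, fr_neg, fr_neg, toBlocks_fromBlocks₁₁]
  constructor <;> linarith [fr_nonneg B, fr_nonneg D, fr_nonneg (1 - Y)]

lemma flexU_iff {G σ : Type} [Group G] (s : σ → G) : FlexU s ↔ MFlex CU s := by
  constructor
  · intro h ε hε
    obtain ⟨δ, hδ, E, hE, h⟩ := h (min (ε / 5) 1) (by positivity)
    refine ⟨δ ^ 2, by positivity, E, hE, fun n hn Φ hΦ hm => ?_⟩
    obtain ⟨m, ψ, h1, h2⟩ := h n hn (Φ.codRestrict _ (fun g => hΦ g))
      (fun e he => (hs_le hn _ _ hδ.le).2 (hm e he))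
    have hN : (0:ℝ) ≤ n := Nat.cast_nonneg _
    have a1 : min (ε / 5) 1 * n ≤ ε / 5 * n := by gcongr; exact min_le_left _ _
    have a2 : min (ε / 5) 1 ^ 2 * n ≤ min (ε / 5) 1 * n := by
      gcongr
      have : 0 < min (ε / 5) 1 := by positivity
      nlinarith [min_le_right (ε / 5) 1]
    push_cast at h1
    refine ⟨m, (Matrix.unitaryGroup _ ℂ).subtype.comp ψ, fun g => (ψ g).2, by nlinarith,
      fun x => ?_⟩
    have a3 := (hs_le hn _ _ (by positivity)).1 (h2 x)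
    have a4 := (fr_corner (Φ (FreeGroup.of x)) (w := (ψ (s x)).1) (ψ (s x)).2).2
    rw [Fintype.card_fin] at a4
    exact a4.trans (by
      have : fr (Φ (FreeGroup.of x) - (ψ (s x)).1.toBlocks₁₁) ≤ _ := a3
      linarith)
  · intro h ε hε
    obtain ⟨δ, hδ, E, hE, h⟩ := h (min ε (ε ^ 2)) (by positivity)
    refine ⟨√δ, by positivity, E, hE, fun n hn φ hm => ?_⟩
    obtain ⟨m, ψ, hψ, h1, h2⟩ := h n hn ((Matrix.unitaryGroup _ ℂ).subtype.comp φ)
      (fun g => (φ g).2) (fun e he => by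
        have := (hs_le hn _ _ (by positivity)).1 (hm e he)
        rwa [Real.sq_sqrt hδ.le] at this)
    have hN : (0:ℝ) ≤ n := Nat.cast_nonneg _
    have a1 : min ε (ε ^ 2) * n ≤ ε * n := by gcongr; exact min_le_left _ _
    have a2 : min ε (ε ^ 2) * n ≤ ε ^ 2 * n := by gcongr; exact min_le_right _ _
    refine ⟨m, ψ.codRestrict _ (fun g => hψ g), by push_cast; linarith, fun x => ?_⟩
    exact (hs_le hn _ _ hε.le).2 (((fr_corner _ (hψ (s x))).1.trans (h2 x)).trans a2)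

lemma ham_le {n : ℕ} (hn : 0 < n) (σ τ : Equiv.Perm (Fin n)) (r : ℝ) :
    ham n σ τ ≤ r ↔ fr (pm σ - pm τ) ≤ 2 * r * n := by
  have : (0:ℝ) < n := by exact_mod_cast hn
  rw [← div_le_iff₀ this, ham_eq]
  constructor <;> intro h <;> linarith

lemma exists_restr {α β : Type} [Fintype α] (ψ : Equiv.Perm (α ⊕ β)) :
    ∃ τ : Equiv.Perm α, ∀ a b, ψ (Sum.inl a) = Sum.inl b → τ a = b := by
  let A := {a : α // ∃ a', ψ (Sum.inl a) = Sum.inl a'}
  let g : A → α := fun a => a.2.choose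
  have hg : ∀ a : A, ψ (Sum.inl a.1) = Sum.inl (g a) := fun a => a.2.choose_spec
  obtain ⟨τ, hτ⟩ := Equiv.Perm.exists_extending_pair (f := fun a : A => a.1) (g := g)
    Subtype.val_injective (by
      intro a b hab
      have : ψ (Sum.inl a.1) = ψ (Sum.inl b.1) := by rw [hg, hg, hab]
      exact Subtype.ext (Sum.inl_injective (ψ.injective this)))
  exact ⟨τ, fun a b h => (hτ ⟨a, b, h⟩).trans (Sum.inl_injective ((hg ⟨a, b, h⟩).symm.trans h))⟩

lemma fr_restr {α β : Type} [Fintype α] [DecidableEq α] [Fintype β] [DecidableEq β]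
    (φ τ : Equiv.Perm α) (ψ : Equiv.Perm (α ⊕ β))
    (h : ∀ a b, ψ (Sum.inl a) = Sum.inl b → τ a = b) :
    fr (pm φ - pm τ) ≤ fr (blk (pm φ) β - pm ψ) ∧
      fr (blk (pm φ) β - pm ψ) ≤ fr (pm φ - pm τ) + 4 * Fintype.card β := by
  rw [blk, ← pm_refl, ← pm_sum, fr_pm_sub, fr_pm_sub]
  have a1 : (Finset.univ.filter fun a => φ a ≠ τ a).card ≤
      (Finset.univ.filter fun j => (Equiv.sumCongr φ (Equiv.refl β)) j ≠ ψ j).card := by
    refine Finset.card_le_card_of_injOn Sum.inl (fun a ha => ?_) Sum.inl_injective.injOn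
    simp only [Finset.coe_filter, Finset.mem_univ, true_and, Set.mem_ofPred_eq] at ha ⊢
    exact fun h' => ha (h a _ h'.symm).symm
  have a2 : (Finset.univ.filter fun j => (Equiv.sumCongr φ (Equiv.refl β)) j ≠ ψ j).card ≤
      (Finset.univ.filter fun a => φ a ≠ τ a).card + 2 * Fintype.card β := by
    calc _ ≤ (((Finset.univ.filter fun a => φ a ≠ τ a).image (Sum.inl : α → α ⊕ β)) ∪
          ((Finset.univ.image (Sum.inr : β → α ⊕ β)) ∪
          (Finset.univ.image (fun b : β => ψ.symm (Sum.inr b))))).card := by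
          apply Finset.card_le_card
          rintro (a | b) hj
          · simp only [Finset.mem_filter, Finset.mem_univ, true_and] at hj
            rcases h' : ψ (Sum.inl a) with a' | b
            · refine Finset.mem_union_left _ (Finset.mem_image_of_mem _ ?_)
              simp only [Finset.mem_filter, Finset.mem_univ, true_and]
              intro h''
              apply hj
              rw [h', ← h a a' h', ← h'']; rfl
            · exact Finset.mem_union_right _ (Finset.mem_union_right _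
                (Finset.mem_image.2 ⟨b, Finset.mem_univ _, by rw [← h']; simp⟩))
          · simp
      _ ≤ _ := by
          refine (Finset.card_union_le _ _).trans (add_le_add Finset.card_image_le ?_)
          refine (Finset.card_union_le _ _).trans ?_
          have h1 := Finset.card_image_le (s := (Finset.univ : Finset β))
            (f := (Sum.inr : β → α ⊕ β))
          have h2 := Finset.card_image_le (s := (Finset.univ : Finset β))
            (f := fun b : β => ψ.symm (Sum.inr b))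
          rw [Finset.card_univ] at h1 h2
          omega
  have a1' := (Nat.cast_le (α := ℝ)).2 a1
  have a2' := (Nat.cast_le (α := ℝ)).2 a2
  push_cast at a2'
  constructor <;> linarith

lemma flexP_iff {G σ : Type} [Group G] (s : σ → G) : FlexP s ↔ MFlex CP s := by
  have one : ∀ n, pm (1 : Equiv.Perm (Fin n)) = 1 := fun n => pm_refl
  constructor
  · intro h ε hε
    obtain ⟨δ, hδ, E, hE, h⟩ := h (ε / 6) (by positivity)
    refine ⟨2 * δ, by positivity, E, hE, fun n hn Φ hΦ hm => ?_⟩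
    obtain ⟨m, ψ, h1, h2⟩ := h n hn (perm ⟨Fin n, Φ, hΦ⟩) (fun e he => (ham_le hn _ _ _).2 (by
      rw [← perm_spec ⟨Fin n, Φ, hΦ⟩, one]; exact hm e he))
    have hN : (0:ℝ) ≤ n := Nat.cast_nonneg _
    push_cast at h1
    refine ⟨m, pmHom.comp ψ, fun g => ⟨_, rfl⟩, by nlinarith, fun x => ?_⟩
    obtain ⟨τ, hτ⟩ := exists_restr (ψ (s x))
    have a1 := (ham_le hn _ _ _).1 (h2 x τ hτ)
    have a2 := (fr_restr (perm ⟨Fin n, Φ, hΦ⟩ (FreeGroup.of x)) τ _ hτ).2
    rw [Fintype.card_fin] at a2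
    have a3 : Φ (FreeGroup.of x) = pm (perm ⟨Fin n, Φ, hΦ⟩ (FreeGroup.of x)) :=
      perm_spec ⟨Fin n, Φ, hΦ⟩ _
    rw [a3]
    exact a2.trans (by linarith)
  · intro h ε hε
    obtain ⟨δ, hδ, E, hE, h⟩ := h ε hε
    refine ⟨δ / 2, by positivity, E, hE, fun n hn φ hm => ?_⟩
    obtain ⟨m, ψ, hψ, h1, h2⟩ := h n hn (pmHom.comp φ) (fun g => ⟨_, rfl⟩) (fun e he => by
      have := (ham_le hn _ _ _).1 (hm e he)
      rw [one] at this
      exact this.trans (by linarith))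
    have hN : (0:ℝ) ≤ n := Nat.cast_nonneg _
    refine ⟨m, perm ⟨Fin n ⊕ Fin m, ψ, hψ⟩, by push_cast; linarith, fun x τ hτ => ?_⟩
    have a2 := (fr_restr (φ (FreeGroup.of x)) τ _ hτ).1
    rw [← perm_spec ⟨Fin n ⊕ Fin m, ψ, hψ⟩] at a2
    exact (ham_le hn _ _ _).2 ((a2.trans (h2 x)).trans (by nlinarith))

lemma amalgam {C : Cls} {H G₁ G₂ : Type} [Group H] [Group G₁] [Group G₂] [Finite H]
    {i₁ : H →* G₁} {i₂ : H →* G₂} (D : HData C H)
    (hadd : ∀ ρ σ : Rep C H, D.τ (ρ.sum σ) = D.τ ρ + D.τ σ)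
    (hint : ∀ ρ σ : Rep C H, ∃ z : ℤ, ∑ t, D.τ ρ t * D.τ σ t = z)
    (habs : ∀ (ρ₁ : Rep C G₁) (ρ₂ : Rep C G₂), ∃ (σ₁ : Rep C G₁) (σ₂ : Rep C G₂),
      D.ty ((ρ₁.sum σ₁).comp i₁) = D.ty ((ρ₂.sum σ₂).comp i₂))
    (h₁ : UF C G₁) (h₂ : UF C G₂) : UF C (Amalgam i₁ i₂) := by
  refine amalg_uf D i₁ i₂ hadd hint habs ((QuotientGroup.mk' _).comp Monoid.Coprod.inl)
    ((QuotientGroup.mk' _).comp Monoid.Coprod.inr) (fun h => ?_) ?_ ?_ h₁ h₂
  · simp only [MonoidHom.comp_apply, QuotientGroup.mk'_apply]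
    rw [← mul_inv_eq_one, ← QuotientGroup.mk_inv, ← QuotientGroup.mk_mul,
      QuotientGroup.eq_one_iff]
    exact Subgroup.subset_normalClosure ⟨h, rfl⟩
  · rw [eq_top_iff]
    rintro x -
    obtain ⟨y, rfl⟩ := QuotientGroup.mk_surjective x
    induction y using Monoid.Coprod.induction_on with
    | inl g => exact Subgroup.subset_closure ⟨Sum.inl g, rfl⟩
    | inr g => exact Subgroup.subset_closure ⟨Sum.inr g, rfl⟩
    | mul a b ha hb => rw [QuotientGroup.mk_mul]; exact Subgroup.mul_mem _ ha hb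
  · intro M _ ψ₁ ψ₂ hψ
    refine ⟨QuotientGroup.lift _ (Monoid.Coprod.lift ψ₁ ψ₂) ?_, fun g => rfl, fun g => rfl⟩
    refine Subgroup.normalClosure_le_normal ?_
    rintro _ ⟨h, rfl⟩
    simp only [SetLike.mem_coe, MonoidHom.mem_ker]
    rw [← map_inv, map_mul, Monoid.Coprod.lift_apply_inl, Monoid.Coprod.lift_apply_inr, hψ,
      ← map_mul, mul_inv_cancel, map_one]

/-- Amalgams of (flexibly) stable groups over a finite subgroup that is seen in a finite quotient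
of each factor are flexibly stable, in the Hilbert-Schmidt and in the Hamming metric. -/
theorem result (H G₁ G₂ : Type) [Group H] [Group G₁] [Group G₂] [Finite H]
    [Countable G₁] [Countable G₂] (i₁ : H →* G₁) (i₂ : H →* G₂)
    (e₁ : SeenInFinite i₁) (e₂ : SeenInFinite i₂) (k : ℕ) (s : Fin k → Amalgam i₁ i₂)
    (hgen : Subgroup.closure (Set.range s) = ⊤) :
    GoodU G₁ → GoodU G₂ → FlexU s := by
  have := Fintype.ofFinite H
  have u : ∀ (G : Type) [Group G] [Countable G], GoodU G → UF CU G := by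
    rintro G _ _ (h | ⟨k, s, hs, h⟩)
    · exact ((hs_iff G).1 h).uf
    · exact ((flexU_iff s).1 h).uf hs
  exact fun h₁ h₂ => (flexU_iff s).2 ((amalgam (HU H) HU_add HU_int (HU_abs e₁ e₂)
      (u _ h₁) (u _ h₂)).mflex hgen)

end Pool.Agent.Results.MP_0ea811_al.FlexHS
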